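import Mathlib
import Pool.Agent.Helper54.RayLemma

open Set Metric Filter Topology Function MeasureTheory
open scoped NNReal ENNReal

namespace Pool.Agent.Results.MP_7a8bd8_nt.LiouvilleInjective

/-- Real `m × n` matrices, with the supremum norm of `ℝ ^ (m n)` (the product norm). -/
abbrev Mat (m n : ℕ) : Type := Fin m → Fin n → ℝ

/-- The vector `A q - p`, for a real `m × n` matrix `A` and integer vectors `q ∈ ℤ ^ n`,
`p ∈ ℤ ^ m`. -/
def form {m n : ℕ} (A : Mat m n) (q : Fin n → ℤ) (p : Fin m → ℤ) : Fin m → ℝ :=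
  fun i => (∑ j, A i j * (q j : ℝ)) - (p i : ℝ)

/-- `A` is a Liouville matrix: `A q - p ≠ 0` for all integer vectors `(q, p) ≠ (0, 0)`, and for
every real `N > 0` there are integer vectors `p`, `q` with `‖q‖ > 1` and
`‖A q - p‖ < ‖q‖ ^ (-N)` (supremum norms). -/
def IsLiouville {m n : ℕ} (A : Mat m n) : Prop :=
  (∀ (q : Fin n → ℤ) (p : Fin m → ℤ), (q ≠ 0 ∨ p ≠ 0) → form A q p ≠ 0) ∧
  ∀ N : ℝ, 0 < N → ∃ (p : Fin m → ℤ) (q : Fin n → ℤ), 1 < ‖q‖ ∧ ‖form A q p‖ < ‖q‖ ^ (-N)

/-- The set of Liouville matrices in `U` that every `f k` sends to Liouville matrices. -/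
def keptSet {m n : ℕ} (U : Set (Mat m n)) (f : ℕ → Mat m n → Mat m n) : Set (Mat m n) :=
  {A | A ∈ U ∧ IsLiouville A ∧ ∀ k, IsLiouville (f k A)}

/-- The property of the pair `(m, n)` asked for: for every non-empty open set `U` of matrices and
every sequence of maps `f k`, continuous and injective on `U`, the set `keptSet U f` has positive
Hausdorff dimension. -/
def PositiveDim (m n : ℕ) : Prop :=
  ∀ U : Set (Mat m n), IsOpen U → U.Nonempty → ∀ f : ℕ → Mat m n → Mat m n,
    (∀ k, ContinuousOn (f k) U) → (∀ k, InjOn (f k) U) → 0 < dimH (keptSet U f)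

open Pool.Agent.Helper54

section Positive

variable {m n : ℕ}

lemma continuous_form (q : Fin n → ℤ) (p : Fin m → ℤ) :
    Continuous (fun A : Mat m n => form A q p) := by
  unfold form
  fun_prop

lemma form_add_smul (A e : Mat m n) (t : ℝ) (q : Fin n → ℤ) (p : Fin m → ℤ) (i : Fin m) :
    form (A + t • e) q p i = form A q p i + t * ∑ j, e i j * (q j : ℝ) := by
  simp only [form, Pi.add_apply, Pi.smul_apply, smul_eq_mul, add_mul, Finset.sum_add_distrib,
    Finset.mul_sum, mul_assoc]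
  ring

/-- matrices with a good approximation of quality `N` by some integer vector of norm `> 1` -/
def approxSet (F : Mat m n → Mat m n) (U : Set (Mat m n)) (N : ℕ) : Set (Mat m n) :=
  {A | A ∈ U ∧ ∃ (p : Fin m → ℤ) (q : Fin n → ℤ), 1 < ‖q‖ ∧
    ‖form (F A) q p‖ < ‖q‖ ^ (-(N : ℝ))}

/-- matrices avoiding the rational subspace `X q = p` -/
def avoidSet (F : Mat m n → Mat m n) (U : Set (Mat m n)) (q : Fin n → ℤ) (p : Fin m → ℤ) :
    Set (Mat m n) :=
  {A | A ∈ U ∧ ((q ≠ 0 ∨ p ≠ 0) → form (F A) q p ≠ 0)}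

lemma isOpen_approxSet {F : Mat m n → Mat m n} {U : Set (Mat m n)} (hU : IsOpen U)
    (hF : ContinuousOn F U) (N : ℕ) : IsOpen (approxSet F U N) := by
  have h : approxSet F U N = ⋃ (p : Fin m → ℤ), ⋃ (q : Fin n → ℤ), ⋃ (_ : 1 < ‖q‖),
      U ∩ (fun A => form (F A) q p) ⁻¹' (ball 0 (‖q‖ ^ (-(N : ℝ)))) := by
    ext A
    simp only [approxSet, mem_iUnion, mem_inter_iff, mem_preimage, mem_ball_zero_iff,
      exists_prop]
    constructor
    · rintro ⟨hA, p, q, h1, h2⟩
      exact ⟨p, q, h1, hA, h2⟩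
    · rintro ⟨p, q, h1, hA, h2⟩
      exact ⟨hA, p, q, h1, h2⟩
  rw [h]
  refine isOpen_iUnion fun p => isOpen_iUnion fun q => isOpen_iUnion fun _ => ?_
  exact ((continuous_form q p).comp_continuousOn hF).isOpen_inter_preimage hU isOpen_ball

lemma isOpen_avoidSet {F : Mat m n → Mat m n} {U : Set (Mat m n)} (hU : IsOpen U)
    (hF : ContinuousOn F U) (q : Fin n → ℤ) (p : Fin m → ℤ) : IsOpen (avoidSet F U q p) := by
  by_cases hqp : q ≠ 0 ∨ p ≠ 0
  · have h : avoidSet F U q p = U ∩ (fun A => form (F A) q p) ⁻¹' {0}ᶜ := by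
      ext A
      simp [avoidSet, hqp]
    rw [h]
    exact ((continuous_form q p).comp_continuousOn hF).isOpen_inter_preimage hU
      isOpen_compl_singleton
  · have h : avoidSet F U q p = U := by
      ext A
      simp [avoidSet, hqp]
    rw [h]
    exact hU

lemma rich_approxSet (hm : 0 < m) (hn : 2 ≤ n) {F : Mat m n → Mat m n} {U : Set (Mat m n)}
    (hU : IsOpen U) (hF : ContinuousOn F U) (hinj : InjOn F U) (N : ℕ) :
    Rich U (approxSet F U N) := by
  apply rich_of_ray hF hinj (isOpen_approxSet hU hF N)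
  intro x W hW hxW hWU
  have hFW : IsOpen (F '' W) := invariance_of_domain hW (hF.mono hWU) (hinj.mono hWU)
  obtain ⟨ε, hε, hball⟩ := Metric.isOpen_iff.1 hFW (F x) (mem_image_of_mem F hxW)
  obtain ⟨Q, hQ⟩ := exists_nat_gt (max 1 (1 / ε))
  have hQ1 : (1 : ℝ) < Q := lt_of_le_of_lt (le_max_left _ _) hQ
  have hQε : 1 / ε < Q := lt_of_le_of_lt (le_max_right _ _) hQ
  have hQpos : (0 : ℝ) < Q := by linarith
  set j0 : Fin n := ⟨0, by omega⟩ with hj0
  set j1 : Fin n := ⟨1, by omega⟩ with hj1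
  have hj01 : j1 ≠ j0 := by simp [hj0, hj1]
  set i0 : Fin m := ⟨0, hm⟩ with hi0
  set p : Fin m → ℤ := fun i => round ((Q : ℝ) * F x i j0) with hp
  set q : Fin n → ℤ := Pi.single j0 (Q : ℤ) with hq
  set Z : Mat m n := fun i j => if j = j0 then (p i : ℝ) / Q else F x i j with hZ
  have hZball : Z ∈ ball (F x) ε := by
    rw [mem_ball, dist_pi_lt_iff hε]
    intro i
    rw [dist_pi_lt_iff hε]
    intro j
    by_cases hj : j = j0
    · simp only [hZ, hj, if_true]
      have h1 : |(Q : ℝ) * F x i j0 - p i| ≤ 1 / 2 := abs_sub_round _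
      have h2 : (p i : ℝ) / Q - F x i j0 = - (((Q : ℝ) * F x i j0 - p i) / Q) := by
        field_simp; ring
      rw [Real.dist_eq, h2, abs_neg, abs_div, abs_of_pos hQpos, div_lt_iff₀ hQpos]
      have h3 : 1 < ε * Q := by
        rw [div_lt_iff₀ hε] at hQε
        linarith
      linarith
    · simp only [hZ, hj, if_false, dist_self]
      exact hε
  obtain ⟨z, hzW, hzZ⟩ := hball hZball
  set e : Mat m n := fun _ j => if j = j1 then 1 else 0 with he
  refine ⟨z, hzW, e, ?_, ?_⟩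
  · intro h0
    have := congrFun (congrFun h0 i0) j1
    simp [he] at this
  · intro u hu t _ hut
    have hqnorm : ‖q‖ = Q := by
      rw [hq, Pi.norm_single, Int.norm_eq_abs]
      simp
    refine ⟨hu, p, q, by rw [hqnorm]; exact hQ1, ?_⟩
    have h1 : form (F u) q p = 0 := by
      ext i
      rw [hut, form_add_smul, hzZ]
      simp only [form, hq, hZ, he, Pi.single_apply, Int.cast_ite, Int.cast_natCast, Int.cast_zero,
        mul_ite, mul_zero, Finset.sum_ite_eq', Finset.mem_univ, if_true]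
      rw [if_neg hj01.symm]
      field_simp
      simp
    rw [h1, norm_zero, hqnorm]
    exact Real.rpow_pos_of_pos hQpos _

lemma rich_avoidSet (hm : 0 < m) (hn : 0 < n) {F : Mat m n → Mat m n} {U : Set (Mat m n)}
    (hU : IsOpen U) (hF : ContinuousOn F U) (hinj : InjOn F U) (q : Fin n → ℤ) (p : Fin m → ℤ) :
    Rich U (avoidSet F U q p) := by
  set i0 : Fin m := ⟨0, hm⟩ with hi0
  apply rich_of_ray hF hinj (isOpen_avoidSet hU hF q p)
  intro x W hW hxW hWU
  by_cases hq : q = 0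
  · refine ⟨x, hxW, fun _ _ => 1, ?_, ?_⟩
    · intro h0
      have := congrFun (congrFun h0 i0) ⟨0, hn⟩
      simp at this
    · intro u hu t _ _
      refine ⟨hu, fun hqp h0 => ?_⟩
      have hp : p ≠ 0 := by
        rcases hqp with h | h
        · exact absurd hq h
        · exact h
      apply hp
      ext i
      have := congrFun h0 i
      simp [form, hq] at this
      simpa using this
  · obtain ⟨j0, hj0⟩ : ∃ j0, q j0 ≠ 0 := by
      by_contra h
      push Not at h
      exact hq (funext h)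
    have hqj : (q j0 : ℝ) ≠ 0 := by exact_mod_cast hj0
    have hFW : IsOpen (F '' W) := invariance_of_domain hW (hF.mono hWU) (hinj.mono hWU)
    -- a point of the image off the subspace
    obtain ⟨Z, hZ, hZne⟩ : ∃ Z ∈ F '' W, form Z q p ≠ 0 := by
      by_cases h : form (F x) q p = 0
      · set d : Mat m n := fun _ j => if j = j0 then 1 else 0 with hd
        have hcont : Continuous (fun t : ℝ => F x + t • d) := by fun_prop
        have h1 : ∀ᶠ t in 𝓝 (0 : ℝ), F x + t • d ∈ F '' W := by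
          apply hcont.continuousAt.eventually_mem
          apply hFW.mem_nhds
          simp only [zero_smul, add_zero]
          exact mem_image_of_mem F hxW
        obtain ⟨ε, hε, h2⟩ := Metric.eventually_nhds_iff.1 h1
        refine ⟨F x + (ε / 2) • d, h2 ?_, ?_⟩
        · rw [dist_zero_right, Real.norm_of_nonneg (by positivity)]
          linarith
        · intro h0
          have h3 := congrFun h0 i0
          rw [form_add_smul, h] at h3
          simp only [hd, Pi.zero_apply, ite_mul, one_mul, zero_mul, Finset.sum_ite_eq',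
            Finset.mem_univ, if_true, zero_add] at h3
          have : ε / 2 * (q j0 : ℝ) ≠ 0 := mul_ne_zero (by positivity) hqj
          exact this h3
      · exact ⟨F x, mem_image_of_mem F hxW, h⟩
    obtain ⟨z, hzW, hzZ⟩ := hZ
    set e : Mat m n := fun i j => if j = j0 then form Z q p i / q j0 else 0 with he
    have hesum : ∀ i, ∑ j, e i j * (q j : ℝ) = form Z q p i := by
      intro i
      simp only [he, ite_mul, zero_mul, Finset.sum_ite_eq', Finset.mem_univ, if_true]
      field_simp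
    refine ⟨z, hzW, e, ?_, ?_⟩
    · intro h0
      apply hZne
      ext i
      rw [← hesum i, h0]
      simp
    · intro u hu t ht hut
      refine ⟨hu, fun _ h0 => ?_⟩
      apply hZne
      ext i
      have h1 := congrFun h0 i
      rw [hut, form_add_smul, hesum, hzZ] at h1
      have h2 : (1 + t) * form Z q p i = 0 := by
        rw [Pi.zero_apply] at h1
        linarith
      rcases mul_eq_zero.1 h2 with h3 | h3
      · linarith
      · exact h3

/-- the lower bound for `n ≥ 2` -/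
theorem one_le_dimH_keptSet (hm : 0 < m) (hn : 2 ≤ n) {U : Set (Mat m n)} (hU : IsOpen U)
    (hne : U.Nonempty) (f : ℕ → Mat m n → Mat m n) (hf : ∀ k, ContinuousOn (f k) U)
    (hinj : ∀ k, InjOn (f k) U) : 1 ≤ dimH (keptSet U f) := by
  set F : Option ℕ → Mat m n → Mat m n := fun k => k.elim id f with hFdef
  have hF : ∀ k, ContinuousOn (F k) U := by
    rintro (_ | k)
    · exact continuousOn_id
    · exact hf k
  have hFinj : ∀ k, InjOn (F k) U := by
    rintro (_ | k)
    · exact injOn_id U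
    · exact hinj k
  set O : Option ℕ × (ℕ ⊕ ((Fin n → ℤ) × (Fin m → ℤ))) → Set (Mat m n) := fun a =>
    a.2.elim (fun N => approxSet (F a.1) U N) (fun qp => avoidSet (F a.1) U qp.1 qp.2) with hO
  have hrich : ∀ a, Rich U (O a) := by
    rintro ⟨k, N | ⟨q, p⟩⟩
    · exact rich_approxSet hm hn hU (hF k) (hFinj k) N
    · exact rich_avoidSet hm (by omega) hU (hF k) (hFinj k) q p
  refine (one_le_dimH_of_rich hrich hU hne).trans (dimH_mono ?_)
  rintro A ⟨hAU, hA⟩
  rw [mem_iInter] at hA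
  have hL : ∀ k, IsLiouville (F k A) := by
    intro k
    refine ⟨fun q p hqp => (hA ⟨k, Sum.inr (q, p)⟩).2 hqp, fun N hN => ?_⟩
    obtain ⟨N', hN'⟩ := exists_nat_ge N
    obtain ⟨_, p, q, h1, h2⟩ := hA ⟨k, Sum.inl N'⟩
    exact ⟨p, q, h1, h2.trans_le (Real.rpow_le_rpow_of_exponent_le h1.le (by linarith))⟩
  exact ⟨hAU, hL none, fun k => hL (some k)⟩

end Positive

section ColumnVectors

variable {m : ℕ}

/-- the finite set of numerators used in the covering -/
noncomputable def box (m K : ℕ) (q : ℤ) : Finset (Fin m → ℤ) :=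
  Fintype.piFinset (fun _ => Finset.Icc (-((K : ℤ) * |q|)) ((K : ℤ) * |q|))

lemma card_box_le (m : ℕ) {K : ℕ} (hK : 1 ≤ K) {q : ℤ} (hq : 1 ≤ |q|) :
    ((box m K q).card : ℝ) ≤ (3 * K * |(q : ℝ)|) ^ m := by
  rw [box, Fintype.card_piFinset_const, Int.card_Icc, Nat.cast_pow]
  apply pow_le_pow_left₀ (by positivity)
  have h0 : (0 : ℤ) ≤ (K : ℤ) * |q| + 1 - -((K : ℤ) * |q|) := by
    have : (0 : ℤ) ≤ (K : ℤ) * |q| := by positivity
    linarith
  have h1 : (((((K : ℤ) * |q| + 1 - -((K : ℤ) * |q|)).toNat : ℕ) : ℤ) : ℝ)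
      = (K : ℝ) * |(q : ℝ)| + 1 + (K : ℝ) * |(q : ℝ)| := by
    rw [Int.toNat_of_nonneg h0]
    push_cast
    ring
  have h2 : ((((K : ℤ) * |q| + 1 - -((K : ℤ) * |q|)).toNat : ℕ) : ℝ)
      = (K : ℝ) * |(q : ℝ)| + 1 + (K : ℝ) * |(q : ℝ)| := by
    rw [← h1]
    norm_cast
  rw [h2]
  have h3 : (1 : ℝ) ≤ K := by exact_mod_cast hK
  have h4 : (1 : ℝ) ≤ |(q : ℝ)| := by exact_mod_cast hq
  nlinarith

/-- the covering sets -/
def cov (m K N : ℕ) (a : Σ q : ℤ, {p : Fin m → ℤ // p ∈ box m K q}) : Set (Mat m 1) :=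
  if 2 ≤ |a.1| then
    closedBall (fun i _ => (a.2.1 i : ℝ) / (a.1 : ℝ)) (1 / |(a.1 : ℝ)| ^ (N + 1))
  else ∅

lemma ediam_cov_le (K N : ℕ) (a : Σ q : ℤ, {p : Fin m → ℤ // p ∈ box m K q}) :
    ediam (cov m K N a) ≤ if 2 ≤ |a.1| then ENNReal.ofReal (2 / |(a.1 : ℝ)| ^ (N + 1)) else 0 := by
  unfold cov
  split_ifs with h
  · apply Metric.ediam_le_of_forall_dist_le
    intro x hx y hy
    rw [mem_closedBall] at hx hy
    calc dist x y ≤ dist x (fun i _ => (a.2.1 i : ℝ) / (a.1 : ℝ))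
          + dist (fun i _ => (a.2.1 i : ℝ) / (a.1 : ℝ)) y := dist_triangle _ _ _
      _ ≤ 1 / |(a.1 : ℝ)| ^ (N + 1) + 1 / |(a.1 : ℝ)| ^ (N + 1) :=
          add_le_add hx (by rw [dist_comm]; exact hy)
      _ = 2 / |(a.1 : ℝ)| ^ (N + 1) := by ring
  · simp

lemma subset_iUnion_cov (R N : ℕ) :
    {A : Mat m 1 | IsLiouville A ∧ ‖A‖ ≤ R} ⊆ ⋃ a, cov m (R + 1) N a := by
  rintro A ⟨⟨_, hA⟩, hAR⟩
  obtain ⟨p, q, hq, hpq⟩ := hA (N + 1) (by positivity)
  have hqn : ‖q‖ = |(q 0 : ℝ)| := by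
    apply le_antisymm
    · rw [pi_norm_le_iff_of_nonneg (abs_nonneg _)]
      intro i
      rw [Subsingleton.elim i 0, Int.norm_eq_abs]
    · have := norm_le_pi_norm q 0
      rwa [Int.norm_eq_abs] at this
  rw [hqn] at hq hpq
  have hq1 : (1 : ℤ) < |q 0| := by exact_mod_cast hq
  have hq2 : (2 : ℤ) ≤ |q 0| := hq1
  have hqpos : 0 < |(q 0 : ℝ)| := by linarith
  have hq0 : (q 0 : ℝ) ≠ 0 := abs_pos.1 hqpos
  have hpow : |(q 0 : ℝ)| ^ (-((N : ℝ) + 1)) = 1 / |(q 0 : ℝ)| ^ (N + 1) := by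
    rw [Real.rpow_neg hqpos.le, one_div,
      show ((N : ℝ) + 1) = ((N + 1 : ℕ) : ℝ) by push_cast; ring, Real.rpow_natCast]
  rw [hpow] at hpq
  have hle1 : 1 / |(q 0 : ℝ)| ^ (N + 1) ≤ 1 := by
    rw [div_le_one (by positivity)]
    exact one_le_pow₀ hq.le
  have hi : ∀ i, |A i 0 * (q 0 : ℝ) - p i| < 1 / |(q 0 : ℝ)| ^ (N + 1) := by
    intro i
    have h1 := (norm_le_pi_norm (form A q p) i).trans_lt hpq
    rw [Real.norm_eq_abs] at h1
    simpa [form] using h1
  have hAi : ∀ i, |A i 0| ≤ R := by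
    intro i
    have h1 := norm_le_pi_norm A i
    have h2 := norm_le_pi_norm (A i) 0
    rw [Real.norm_eq_abs] at h2
    linarith
  have hbox : p ∈ box m (R + 1) (q 0) := by
    rw [box, Fintype.mem_piFinset]
    intro i
    rw [Finset.mem_Icc, ← abs_le]
    have h1 : |(p i : ℝ)| ≤ (R + 1) * |(q 0 : ℝ)| := by
      calc |(p i : ℝ)| = |A i 0 * (q 0 : ℝ) - (A i 0 * (q 0 : ℝ) - p i)| := by congr 1; ring
        _ ≤ |A i 0 * (q 0 : ℝ)| + |A i 0 * (q 0 : ℝ) - p i| := abs_sub _ _
        _ ≤ R * |(q 0 : ℝ)| + 1 := by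
            rw [abs_mul]
            gcongr
            · exact hAi i
            · exact ((hi i).le.trans hle1)
        _ ≤ (R + 1) * |(q 0 : ℝ)| := by nlinarith
    have h2 : ((|p i| : ℤ) : ℝ) ≤ (((R + 1 : ℕ) : ℤ) * |q 0| : ℤ) := by
      push_cast
      exact h1
    exact_mod_cast h2
  rw [mem_iUnion]
  refine ⟨⟨q 0, ⟨p, hbox⟩⟩, ?_⟩
  unfold cov
  simp only
  rw [if_pos hq2, mem_closedBall, dist_pi_le_iff (by positivity)]
  intro i
  rw [dist_pi_le_iff (by positivity)]
  intro j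
  rw [Subsingleton.elim j 0, Real.dist_eq]
  have h1 : A i 0 - (p i : ℝ) / (q 0 : ℝ) = (A i 0 * (q 0 : ℝ) - p i) / (q 0 : ℝ) := by
    field_simp
  rw [h1, abs_div, div_le_iff₀ hqpos]
  have h2 := (hi i).le
  have h3 : 0 < 1 / |(q 0 : ℝ)| ^ (N + 1) := by positivity
  nlinarith

lemma hausdorffMeasure_eq_zero (R : ℕ) {d : ℝ≥0} (hd : 0 < d) :
    μH[(d : ℝ)] {A : Mat m 1 | IsLiouville A ∧ ‖A‖ ≤ R} = 0 := by
  have hd' : (0 : ℝ) < d := by exact_mod_cast hd
  set K := R + 1 with hK
  have hK1 : 1 ≤ K := by omega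
  -- the constants
  set c : ℕ → ℝ := fun N => (3 * K : ℝ) ^ m * 2 ^ (d : ℝ) * 2 ^ ((m : ℝ) + 2 - (N + 1) * d) with hc
  have hclim : Tendsto c atTop (𝓝 0) := by
    have h1 : Tendsto (fun N : ℕ => (2 : ℝ) ^ ((m : ℝ) + 2 - (N + 1) * d)) atTop (𝓝 0) := by
      have h2 : Tendsto (fun N : ℕ => (m : ℝ) + 2 - ((N : ℝ) + 1) * d) atTop atBot := by
        have h3 : Tendsto (fun N : ℕ => ((N : ℝ) + 1) * d) atTop atTop :=
          (tendsto_atTop_add_const_right _ _ tendsto_natCast_atTop_atTop).atTop_mul_const hd'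
        exact tendsto_const_nhds.add_atBot (tendsto_neg_atTop_atBot.comp h3)
      exact (tendsto_rpow_atBot_of_base_gt_one 2 (by norm_num)).comp h2
    simpa [hc] using h1.const_mul ((3 * K : ℝ) ^ m * 2 ^ (d : ℝ))
  set S : ℝ≥0∞ := ∑' q : ℤ, ENNReal.ofReal (1 / (q : ℝ) ^ 2) with hS
  have hSfin : S ≠ ⊤ := by
    have h1 : Summable (fun q : ℤ => 1 / (q : ℝ) ^ 2) := Real.summable_one_div_int_pow.2 one_lt_two
    exact h1.tsum_ofReal_ne_top
  -- the bound on the sums
  have hbound : ∀ᶠ N : ℕ in atTop,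
      ∑' a, ediam (cov m K N a) ^ (d : ℝ) ≤ ENNReal.ofReal (c N) * S := by
    have hev : ∀ᶠ N : ℕ in atTop, (m : ℝ) + 2 ≤ ((N : ℝ) + 1) * d := by
      have h3 : Tendsto (fun N : ℕ => ((N : ℝ) + 1) * d) atTop atTop :=
        (tendsto_atTop_add_const_right _ _ tendsto_natCast_atTop_atTop).atTop_mul_const hd'
      exact h3.eventually_ge_atTop _
    filter_upwards [hev] with N hN
    rw [ENNReal.tsum_sigma', hS, ← ENNReal.tsum_mul_left]
    apply ENNReal.tsum_le_tsum
    intro q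
    rw [tsum_fintype]
    by_cases hq : 2 ≤ |q|
    · have hq1 : (1 : ℤ) ≤ |q| := by omega
      have hq2 : (2 : ℝ) ≤ |(q : ℝ)| := by exact_mod_cast hq
      have hqpos : 0 < |(q : ℝ)| := by linarith
      calc ∑ p : {p : Fin m → ℤ // p ∈ box m K q}, ediam (cov m K N ⟨q, p⟩) ^ (d : ℝ)
          ≤ ∑ _p : {p : Fin m → ℤ // p ∈ box m K q},
            ENNReal.ofReal ((2 / |(q : ℝ)| ^ (N + 1)) ^ (d : ℝ)) := by
            apply Finset.sum_le_sum
            intro p _
            rw [← ENNReal.ofReal_rpow_of_nonneg (by positivity) hd'.le]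
            apply ENNReal.rpow_le_rpow _ hd'.le
            have := ediam_cov_le K N (⟨q, p⟩ : Σ q : ℤ, {p : Fin m → ℤ // p ∈ box m K q})
            rwa [if_pos hq] at this
        _ = ENNReal.ofReal ((box m K q).card * (2 / |(q : ℝ)| ^ (N + 1)) ^ (d : ℝ)) := by
            rw [Finset.sum_const, Finset.card_univ, Fintype.card_coe, nsmul_eq_mul,
              ENNReal.ofReal_mul (by positivity), ENNReal.ofReal_natCast]
        _ ≤ ENNReal.ofReal (c N * (1 / (q : ℝ) ^ 2)) := by
            apply ENNReal.ofReal_le_ofReal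
            have h1 := card_box_le m hK1 hq1
            have h2 : (2 / |(q : ℝ)| ^ (N + 1)) ^ (d : ℝ)
                = 2 ^ (d : ℝ) * |(q : ℝ)| ^ (-(((N : ℝ) + 1) * d)) := by
              rw [Real.div_rpow (by norm_num) (by positivity), Real.rpow_neg hqpos.le,
                div_eq_mul_inv]
              congr 2
              rw [Real.rpow_mul hqpos.le]
              congr 1
              exact_mod_cast (Real.rpow_natCast |(q : ℝ)| (N + 1)).symm
            have h3 : |(q : ℝ)| ^ (-(((N : ℝ) + 1) * d)) * |(q : ℝ)| ^ m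
                = |(q : ℝ)| ^ ((m : ℝ) + 2 - (N + 1) * d) * (1 / (q : ℝ) ^ 2) := by
              rw [← Real.rpow_natCast |(q : ℝ)| m, ← Real.rpow_add hqpos, ← sq_abs (q : ℝ),
                one_div, ← Real.rpow_natCast |(q : ℝ)| 2, ← Real.rpow_neg hqpos.le,
                ← Real.rpow_add hqpos]
              congr 1
              push_cast
              ring
            have h4 : |(q : ℝ)| ^ ((m : ℝ) + 2 - (N + 1) * d)
                ≤ 2 ^ ((m : ℝ) + 2 - (N + 1) * d) := by
              apply Real.rpow_le_rpow_of_nonpos (by norm_num) hq2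
              linarith
            calc ((box m K q).card : ℝ) * (2 / |(q : ℝ)| ^ (N + 1)) ^ (d : ℝ)
                ≤ (3 * K * |(q : ℝ)|) ^ m * (2 / |(q : ℝ)| ^ (N + 1)) ^ (d : ℝ) := by
                  gcongr
              _ = (3 * K : ℝ) ^ m * 2 ^ (d : ℝ) *
                  (|(q : ℝ)| ^ (-(((N : ℝ) + 1) * d)) * |(q : ℝ)| ^ m) := by
                  rw [h2, mul_pow]; ring
              _ = (3 * K : ℝ) ^ m * 2 ^ (d : ℝ) *
                  (|(q : ℝ)| ^ ((m : ℝ) + 2 - (N + 1) * d) * (1 / (q : ℝ) ^ 2)) := by rw [h3]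
              _ ≤ (3 * K : ℝ) ^ m * 2 ^ (d : ℝ) *
                  (2 ^ ((m : ℝ) + 2 - (N + 1) * d) * (1 / (q : ℝ) ^ 2)) := by gcongr
              _ = c N * (1 / (q : ℝ) ^ 2) := by simp only [hc]; ring
        _ = ENNReal.ofReal (c N) * ENNReal.ofReal (1 / (q : ℝ) ^ 2) :=
            ENNReal.ofReal_mul (by positivity)
    · have h0 : ∀ p : {p : Fin m → ℤ // p ∈ box m K q},
          ediam (cov m K N ⟨q, p⟩) ^ (d : ℝ) = 0 := by
        intro p
        have h1 := ediam_cov_le K N (⟨q, p⟩ : Σ q : ℤ, {p : Fin m → ℤ // p ∈ box m K q})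
        rw [if_neg hq] at h1
        rw [le_antisymm h1 zero_le]
        exact ENNReal.zero_rpow_of_pos hd'
      simp only [h0, Finset.sum_const_zero]
      exact zero_le
  have hlim : Tendsto (fun N => ENNReal.ofReal (c N) * S) atTop (𝓝 0) := by
    have h1 : Tendsto (fun N => ENNReal.ofReal (c N)) atTop (𝓝 (ENNReal.ofReal 0)) :=
      ENNReal.tendsto_ofReal hclim
    rw [ENNReal.ofReal_zero] at h1
    simpa using ENNReal.Tendsto.mul_const h1 (Or.inr hSfin)
  apply le_antisymm _ zero_le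
  calc μH[(d : ℝ)] {A : Mat m 1 | IsLiouville A ∧ ‖A‖ ≤ R}
      ≤ liminf (fun N => ∑' a, ediam (cov m K N a) ^ (d : ℝ)) atTop := by
        apply Measure.hausdorffMeasure_le_liminf_tsum (d : ℝ) _
          (fun N : ℕ => ENNReal.ofReal (2 / 2 ^ (N + 1))) ?_ (fun N => cov m K N)
        · filter_upwards with N a
          refine (ediam_cov_le K N a).trans ?_
          split_ifs with h
          · apply ENNReal.ofReal_le_ofReal
            have : (2 : ℝ) ≤ |(a.1 : ℝ)| := by exact_mod_cast h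
            gcongr
          · exact zero_le
        · filter_upwards with N
          exact subset_iUnion_cov R N
        · rw [← ENNReal.ofReal_zero]
          apply ENNReal.tendsto_ofReal
          apply Tendsto.div_atTop tendsto_const_nhds
          exact (tendsto_pow_atTop_atTop_of_one_lt one_lt_two).comp (tendsto_add_atTop_nat 1)
    _ ≤ liminf (fun N => ENNReal.ofReal (c N) * S) atTop := liminf_le_liminf hbound
    _ = 0 := hlim.liminf_eq

/-- For `n = 1` the Liouville matrices have Hausdorff dimension zero. -/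
theorem dimH_liouville_column : dimH {A : Mat m 1 | IsLiouville A} = 0 := by
  have h1 : {A : Mat m 1 | IsLiouville A} = ⋃ R : ℕ, {A : Mat m 1 | IsLiouville A ∧ ‖A‖ ≤ R} := by
    ext A
    simp only [mem_ofPred_eq, mem_iUnion]
    constructor
    · intro h
      obtain ⟨R, hR⟩ := exists_nat_ge ‖A‖
      exact ⟨R, h, hR⟩
    · rintro ⟨R, h, _⟩
      exact h
  rw [h1, dimH_iUnion]
  refine le_antisymm (iSup_le fun R => ?_) zero_le
  refine le_of_forall_gt fun a ha => ?_
  obtain ⟨d, hd0, hda⟩ := ENNReal.lt_iff_exists_nnreal_btwn.1 ha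
  have hd0' : 0 < d := by exact_mod_cast hd0
  have h2 := dimH_le_of_hausdorffMeasure_ne_top
    (d := d) (s := {A : Mat m 1 | IsLiouville A ∧ ‖A‖ ≤ R}) (by
      rw [hausdorffMeasure_eq_zero R hd0']
      exact ENNReal.zero_ne_top)
  exact h2.trans_lt hda

end ColumnVectors

/-- **Answer to Q1.** A pair `(m, n)` of positive integers has the property that
`dim_H E(U, (f_k)) > 0` for every non-empty open `U` and every sequence of injective continuous
maps `f_k` on `U` if and only if `n ≥ 2`; and for `n ≥ 2` one always has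
`dim_H E(U, (f_k)) ≥ 1`. -/
theorem result (m n : ℕ) (hm : 0 < m) (hn : 0 < n) :
    (PositiveDim m n ↔ 2 ≤ n) ∧
    (2 ≤ n → ∀ U : Set (Mat m n), IsOpen U → U.Nonempty → ∀ f : ℕ → Mat m n → Mat m n,
      (∀ k, ContinuousOn (f k) U) → (∀ k, InjOn (f k) U) → 1 ≤ dimH (keptSet U f)) := by
  refine ⟨⟨fun h => ?_, fun h2 U hU hne f hf hinj => ?_⟩, fun h2 U hU hne f hf hinj => ?_⟩
  · by_contra hlt
    obtain rfl : n = 1 := by omega
    have h1 := h univ isOpen_univ univ_nonempty (fun _ => id) (fun _ => continuousOn_id)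
      (fun _ => injOn_id _)
    have h2 : dimH (keptSet (univ : Set (Mat m 1)) (fun _ => id)) ≤ 0 := by
      rw [← dimH_liouville_column (m := m)]
      apply dimH_mono
      rintro A ⟨_, hA, _⟩
      exact hA
    exact absurd h1 (not_lt.2 h2)
  · exact lt_of_lt_of_le one_pos (one_le_dimH_keptSet hm h2 hU hne f hf hinj)
  · exact one_le_dimH_keptSet hm h2 hU hne f hf hinj

end Pool.Agent.Results.MP_7a8bd8_nt.LiouvilleInjective
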